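import Pool.Agent.U173.GS.Defs

/-!
# The Borel-Moore homology of the products with an arbitrary variety: definitions
-/

set_option autoImplicit false

open Polynomial CategoryTheory AlgebraicGeometry
open scoped TensorProduct

namespace Pool.Agent.U173.BM.B

open Pool.Agent.H914 Pool.Agent.H914.VarClass Pool.Agent.H914.VarClass.Obj Pool.Agent.W492.BB
  Pool.Agent.W484.CK Pool.Agent.N166.MU Pool.Agent.N166.TT Pool.Agent.U231.FR.Base
  Pool.Agent.U173.SL Pool.Agent.U173.PS Pool.Agent.U173.OP

variable {k : Type} [Field k] {𝒱 : VarClass k} {C : TheoryData.{0, 0, 0} 𝒱 ℚ} {K : Type}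
  [Field K]

/-- The data for a variety `U` over `k`, which need not be smooth or proper: for all `X` in the class
`𝒱` of smooth projective varieties the Chow groups `CH X` of the cycles on `X × U` (with rational
coefficients) and the Borel-Moore homology `HB X` of `X × U`, with their gradings by the dimension and
the degree, the classes of cycles, the operation of `G`, the exterior products `D × z` with classes
`D` on `X`, and the operations `x ↦ p_* (E · x)`, where `p : X × Y × U → Y × U` is the projection and `E`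
is a cycle on `X`. -/
structure HomologyData (H : WeilTheoryData.{0, 0, 0} C K) (G : Type) where
  /-- the Chow groups of `X × U` -/
  CH : 𝒱.Obj → Type
  [chGroup : ∀ X, AddCommGroup (CH X)]
  [chModule : ∀ X, Module ℚ (CH X)]
  /-- the Borel-Moore homology of `X × U` -/
  HB : 𝒱.Obj → Type
  [hbGroup : ∀ X, AddCommGroup (HB X)]
  [hbModule : ∀ X, Module K (HB X)]
  /-- the cycles of dimension `n` -/
  chGr : ∀ X, ℤ → Submodule ℚ (CH X)
  /-- the homology of degree `n` -/
  hbGr : ∀ X, ℤ → Submodule K (HB X)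
  /-- the classes of cycles -/
  cl : ∀ {X}, CH X → HB X
  /-- the operation of `G` -/
  op : ∀ X, G → HB X →ₗ[K] HB X
  /-- exterior products of cycles -/
  times : ∀ {X Y}, C.A X → CH Y → CH (X.prod Y)
  /-- exterior products of classes -/
  timesH : ∀ {X Y}, H.A X →ₗ[K] HB Y →ₗ[K] HB (X.prod Y)
  /-- `x ↦ p_* (E · x)` for cycles -/
  slant : ∀ {X Y}, C.A X → CH (X.prod Y) → CH Y
  /-- `x ↦ p_* (E · x)` for classes -/
  slantH : ∀ {X Y}, C.A X → HB (X.prod Y) →ₗ[K] HB Y

attribute [instance] HomologyData.chGroup HomologyData.chModule HomologyData.hbGroup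
  HomologyData.hbModule

variable {H : WeilTheoryData.{0, 0, 0} C K} {G : Type}

/-- The gradings: the homology is finite-dimensional, vanishes in negative degrees, and the classes
of cycles, exterior products and the classes `p_* (E · x)` have the usual degrees. An element of
`H^i(X)` gives an element of the homology of degree `2 dim X - i`. -/
structure IsGraded (T : HomologyData H G) : Prop where
  finite : ∀ X, Module.Finite K (T.HB X)
  vanish : ∀ X n, n < 0 → T.hbGr X n = ⊥
  cl_deg : ∀ X n, ∀ x ∈ T.chGr X n, T.cl x ∈ T.hbGr X (2 * n)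
  times_deg : ∀ (X Y : 𝒱.Obj) (i n : ℤ) (D : C.A X), C.Deg i D → ∀ z ∈ T.chGr Y n,
    T.times D z ∈ T.chGr (X.prod Y) (X.dim - i + n)
  timesH_deg : ∀ (X Y : 𝒱.Obj) (i n : ℤ) (a : H.A X), H.Deg i a → ∀ b ∈ T.hbGr Y n,
    T.timesH a b ∈ T.hbGr (X.prod Y) (2 * X.dim - i + n)
  slant_deg : ∀ (X Y : 𝒱.Obj) (i n : ℤ) (E : C.A X), C.Deg i E →
    ∀ x ∈ T.chGr (X.prod Y) n, T.slant E x ∈ T.chGr Y (n - i)
  slantH_deg : ∀ (X Y : 𝒱.Obj) (i n : ℤ) (E : C.A X), C.Deg i E →
    ∀ x ∈ T.hbGr (X.prod Y) n, T.slantH E x ∈ T.hbGr Y (n - 2 * i)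

/-- The class map is linear and compatible with the operations, `p_* (E · (D × z))` is the multiple
of `z` by the degree of `D · E`, and the Künneth formula holds: the homology of `X × Y × U` is
`H(X) ⊗ H(Y × U)`. -/
structure IsCompatible (T : HomologyData H G) : Prop where
  cl_add : ∀ X (x y : T.CH X), T.cl (x + y) = T.cl x + T.cl y
  cl_smul : ∀ X (q : ℚ) (x : T.CH X), T.cl (q • x) = (q : K) • T.cl x
  cl_times : ∀ (X Y : 𝒱.Obj) (D : C.A X) (z : T.CH Y),
    T.cl (T.times D z) = T.timesH (H.cl D) (T.cl z)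
  cl_slant : ∀ (X Y : 𝒱.Obj) (E : C.A X) (x : T.CH (X.prod Y)),
    T.cl (T.slant E x) = T.slantH E (T.cl x)
  slantH_times : ∀ (X Y : 𝒱.Obj) (a : H.A X) (E : C.A X) (b : T.HB Y) (c : K),
    H.down (snd X Y) (H.up (fst X Y) (H.mul a (H.cl E))) = c • 1 →
      T.slantH E (T.timesH a b) = c • b
  kunneth : ∀ X Y : 𝒱.Obj, Function.Bijective
    (TensorProduct.lift (T.timesH (X := X) (Y := Y)) : H.A X ⊗[K] T.HB Y → T.HB (X.prod Y))

/-- The operation of `G`: by automorphisms, on the classes of cycles of dimension `n` through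
`χ ^ (-n)`, and compatible with exterior products up to the twist by `dim X` (the homology is not
twisted). -/
structure IsAction (ρ : Operations H G) (T : HomologyData H G) : Prop where
  injective : ∀ X g, Function.Injective (T.op X g)
  op_cl : ∀ X g n, ∀ x ∈ T.chGr X n, T.op X g (T.cl x) = ρ.χ g ^ (-n) • T.cl x
  op_times : ∀ (X Y : 𝒱.Obj) g (a : H.A X) (b : T.HB Y),
    T.op (X.prod Y) g (T.timesH a b) = ρ.χ g ^ (-(X.dim : ℤ)) • T.timesH (ρ.op X g a) (T.op Y g b)

/-- The usual properties of Chow groups and Borel-Moore homology. -/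
structure IsHomology (ρ : Operations H G) (T : HomologyData H G) : Prop extends
  IsGraded T, IsCompatible T, IsAction ρ T

variable (ρ : Operations H G) (T : HomologyData H G)

/-- The Tate classes of dimension `n` on `X × U`: the elements of the homology of degree `2 n` on which
`G` acts through `χ ^ (-n)`, that is, the invariants in the homology twisted by `n`. -/
def IsTateClass (X : 𝒱.Obj) (n : ℤ) (w : T.HB X) : Prop :=
  w ∈ T.hbGr X (2 * n) ∧ ∀ g, T.op X g w = ρ.χ g ^ (-n) • w

/-- The class map for cycles of dimension `n` on `X × U` is onto the Tate classes (after the extension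
of the coefficients). -/
def IsOnto (X : 𝒱.Obj) (n : ℤ) : Prop :=
  ∀ w, IsTateClass ρ T X n w → w ∈ Submodule.span K {c | ∃ x ∈ T.chGr X n, c = T.cl x}

variable [CharZero K]

/-- Let `B` be the rational space of the classes of cycles of dimension `n` on `X × U`. The map from
`B ⊗ K` to the homology is injective: if the numbers `c s` in `K` are linearly independent over `ℚ` and
`∑ c s cl (x s) = 0`, then all `cl (x s)` are zero. -/
def IsInjective (T : HomologyData H G) (X : 𝒱.Obj) (n : ℤ) : Prop :=
  ∀ (r : ℕ) (c : Fin r → K) (x : Fin r → T.CH X), LinearIndependent ℚ c →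
    (∀ s, x s ∈ T.chGr X n) → ∑ s, c s • T.cl (x s) = 0 → ∀ s, T.cl (x s) = 0

/-- There are finitely many cycles `D j` on `A` such that the class of every cycle on `A × Y × U` is in
a unique way the class of a sum `∑ D j × z j` with cycles `z j` on `Y × U` (determined up to their
classes), and every Tate class on `A × Y × U` is in a unique way a sum `∑ cl (D j) × h j` with Tate
classes `h j` on `Y × U`. -/
def IsDeterminedBy (A Y : 𝒱.Obj) : Prop :=
  ∃ (J : Type) (_ : Fintype J) (deg : J → ℕ) (D : J → C.A A), (∀ j, C.Deg (deg j) (D j)) ∧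
    (∀ n, ∀ x ∈ T.chGr (A.prod Y) n, ∃ z : J → T.CH Y,
      ((∀ j, z j ∈ T.chGr Y (n - (A.dim - deg j))) ∧
        T.cl x = T.cl (∑ j, T.times (D j) (z j))) ∧
      ∀ z' : J → T.CH Y, T.cl x = T.cl (∑ j, T.times (D j) (z' j)) →
        ∀ j, T.cl (z' j) = T.cl (z j)) ∧
    ∀ n w, IsTateClass ρ T (A.prod Y) n w → ∃! h : J → T.HB Y,
      (∀ j, IsTateClass ρ T Y (n - (A.dim - deg j)) (h j)) ∧
        w = ∑ j, T.timesH (H.cl (D j)) (h j)

/-- The homology of `Z × U` has at the place `v` a slope field which contains `E` and meets `L` in a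
totally real field. -/
def HomologyMeetsInReal (v : Place G) (E L : IntermediateField ℚ (AlgebraicClosure ℚ))
    (Z : 𝒱.Obj) : Prop :=
  ∃ M, E ≤ M ∧ MeetInReal L M ∧ ∀ (α : K) (a : T.HB Z), a ≠ 0 → T.op Z v.σ a = α • a →
    HasSlopesIn v.p v.ι M α

/-- Each `X i` is good for the set `P i` of places, with slope fields `L i v` which contain totally
real fields `E i v`. For all `v` in `P i`, the varieties `X j` with indices behind `i` in the list `l` and
the varieties `Y j`, `j` in the list `l'`, are apart from `X i` at the place `v`; and the homology of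
`Z × U` has at `v` a slope field which contains `E i v` and meets `L i v` in a totally real field. -/
structure IsSystem {I I' : Type} (P : I → Set (Place G))
    (E L : I → Place G → IntermediateField ℚ (AlgebraicClosure ℚ)) (X : I → 𝒱.Obj)
    (Y : I' → 𝒱.Obj) (Z : 𝒱.Obj) (l : List I) (l' : List I') : Prop where
  pos : ∀ i, ∀ v ∈ P i, 0 < v.m
  character : ∀ i, ∀ v ∈ P i, ρ.χ v.σ = (v.p : K) ^ v.m
  real : ∀ i, ∀ v ∈ P i, ∀ z ∈ E i v, IsTotallyReal z
  le : ∀ i, ∀ v ∈ P i, E i v ≤ L i v
  good : ∀ i, Pool.Agent.U173.GS.IsGood ρ (P i) (L i) (X i)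
  pairs : l.Pairwise fun i j => ∀ v ∈ P i, IsApart ρ v (E i v) (L i v) (X j)
  others : ∀ i, ∀ j ∈ l', ∀ v ∈ P i, IsApart ρ v (E i v) (L i v) (Y j)
  base : ∀ i, ∀ v ∈ P i, HomologyMeetsInReal T v (E i v) (L i v) Z

end Pool.Agent.U173.BM.B
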