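import Pool.Agent.U173.GS.Main
import Pool.Agent.U173.BM.B.Defs

/-!
# Tate classes in the Borel-Moore homology of products
-/

set_option autoImplicit false
set_option linter.unusedSectionVars false

open Polynomial CategoryTheory AlgebraicGeometry
open scoped TensorProduct

namespace Pool.Agent.U173.BM.B

open Pool.Agent.H914 Pool.Agent.H914.VarClass Pool.Agent.H914.VarClass.Obj Pool.Agent.W492.BB
  Pool.Agent.W484.CK Pool.Agent.N166.MU Pool.Agent.N166.TT Pool.Agent.N876.CG Pool.Agent.W550.Corr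
  Pool.Agent.U231.FR.Base Pool.Agent.U173.SL Pool.Agent.U173.PS Pool.Agent.TH121.KT
  Pool.Agent.U173.OP Pool.Agent.W484.CH

variable {k : Type} [Field k] {𝒱 : VarClass k} {C : TheoryData.{0, 0, 0} 𝒱 ℚ} [hC : IsChow C]
  {K : Type} [Field K] [CharZero K] {H : WeilTheoryData.{0, 0, 0} C K} [hH : IsWeil H] {G : Type}
  {ρ : Operations H G} {T : HomologyData H G} {A Y : 𝒱.Obj}

section basic

variable (hT : IsHomology ρ T)

include hT

theorem cl_zero (X : 𝒱.Obj) : T.cl (0 : T.CH X) = 0 := by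
  have h1 := hT.cl_smul X 0 0
  rwa [zero_smul, Rat.cast_zero, zero_smul] at h1

theorem cl_sum (X : 𝒱.Obj) {J : Type} (s : Finset J) (x : J → T.CH X) :
    T.cl (∑ j ∈ s, x j) = ∑ j ∈ s, T.cl (x j) := by
  classical
  induction s using Finset.induction_on with
  | empty => rw [Finset.sum_empty, Finset.sum_empty, cl_zero hT]
  | insert a s ha ih => rw [Finset.sum_insert ha, Finset.sum_insert ha, hT.cl_add, ih]

theorem isTateClass_cl {X : 𝒱.Obj} {n : ℤ} {x : T.CH X} (hx : x ∈ T.chGr X n) :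
    IsTateClass ρ T X n (T.cl x) :=
  ⟨hT.cl_deg X n x hx, fun g => hT.op_cl X g n x hx⟩

theorem slantH_cl {a : C.A A} {E : C.A A} {q : ℚ}
    (hq : C.push (snd A Y) (C.pull (fst A Y) (a * E)) = q • 1) (b : T.HB Y) :
    T.slantH E (T.timesH (H.cl a) b) = (q : K) • b := by
  apply hT.slantH_times
  change H.push (snd A Y) (H.pull (fst A Y) (H.cl a * H.cl E)) = _
  rw [← map_mul, ← H.cl_pull, ← H.cl_push, hq, Pool.Agent.W484.CH.cl_smul, map_one]

variable {J : Type} [Fintype J] {deg : J → ℕ} {D E : J → C.A A}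

theorem slantH_sum (hD : IsDual A Y deg D E) (h : J → T.HB Y) (j : J) :
    T.slantH (E j) (∑ i, T.timesH (H.cl (D i)) (h i)) = h j := by
  classical
  rw [map_sum, Finset.sum_eq_single j]
  · rw [slantH_cl hT (q := 1) (by rw [hD.eq, one_smul]), Rat.cast_one, one_smul]
  · intro i _ hij
    rw [slantH_cl hT (q := 0) (by rw [hD.ne i j hij, zero_smul]), Rat.cast_zero, zero_smul]
  · intro h0
    exact absurd (Finset.mem_univ j) h0

omit hT in
theorem AT_le (hN : ∀ n, AK H A n ≤ Submodule.span K {c | ∃ j, deg j = n ∧ c = H.cl (D j)}) :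
    AT H A ≤ Submodule.span K (Set.range fun j => H.cl (D j)) := by
  unfold AT
  refine Submodule.span_le.2 ?_
  rintro _ ⟨n, x, hx, rfl⟩
  have h1 : H.cl x ∈ AK H A n := Submodule.subset_span ⟨x, hx, rfl⟩
  refine Submodule.span_mono ?_ (hN n h1)
  rintro _ ⟨j, -, rfl⟩
  exact ⟨j, rfl⟩

omit hT in
/-- classes in the mixed part are sums -/
theorem sum_of_mixed (hN : ∀ n, AK H A n ≤ Submodule.span K {c | ∃ j, deg j = n ∧ c = H.cl (D j)})
    {u : H.A A ⊗[K] T.HB Y} (hu : u ∈ LinearMap.range ((AT H A).subtype.rTensor (T.HB Y))) :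
    ∃ h : J → T.HB Y, TensorProduct.lift (T.timesH (X := A) (Y := Y)) u =
      ∑ j, T.timesH (H.cl (D j)) (h j) := by
  classical
  obtain ⟨u', rfl⟩ := hu
  induction u' using TensorProduct.induction_on with
  | zero =>
    refine ⟨fun _ => 0, ?_⟩
    simp only [map_zero, Finset.sum_const_zero]
  | tmul a b =>
    obtain ⟨a, ha⟩ := a
    obtain ⟨c, hc⟩ := (Submodule.mem_span_range_iff_exists_fun K).1 (AT_le hN ha)
    refine ⟨fun j => c j • b, ?_⟩
    rw [LinearMap.rTensor_tmul, TensorProduct.lift.tmul]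
    change T.timesH a b = _
    rw [← hc, map_sum, LinearMap.sum_apply]
    refine Finset.sum_congr rfl fun j _ => ?_
    rw [map_smul, LinearMap.smul_apply, map_smul]
  | add x y hx hy =>
    obtain ⟨h1, e1⟩ := hx
    obtain ⟨h2, e2⟩ := hy
    refine ⟨fun j => h1 j + h2 j, ?_⟩
    rw [map_add, map_add, e1, e2, ← Finset.sum_add_distrib]
    refine Finset.sum_congr rfl fun j _ => ?_
    rw [map_add]

/-- the coefficients of Tate classes are Tate classes -/
theorem isTateClass_coef (h : IsArithmetic ρ) (hD : IsDual A Y deg D E) {n : ℤ}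
    {w : T.HB (A.prod Y)} (hw : IsTateClass ρ T (A.prod Y) n w)
    (hsum : w = ∑ j, T.timesH (H.cl (D j)) (T.slantH (E j) w)) (j : J) :
    IsTateClass ρ T Y (n - (A.dim - deg j)) (T.slantH (E j) w) := by
  refine ⟨?_, fun g => ?_⟩
  · have h1 := hT.slantH_deg A Y _ _ (E j) (hD.right j) w hw.1
    rwa [← mul_sub] at h1
  · have hχ := h.action.ne g
    have h1 : T.op (A.prod Y) g w =
        ∑ i, T.timesH (H.cl (D i))
          ((ρ.χ g ^ (-(A.dim : ℤ) + deg i)) • T.op Y g (T.slantH (E i) w)) := by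
      conv_lhs => rw [hsum]
      rw [map_sum]
      refine Finset.sum_congr rfl fun i _ => ?_
      have h2 : ρ.op A g (H.cl (D i)) = ρ.χ g ^ (deg i : ℤ) • H.cl (D i) :=
        h.action.cl A g _ _ (hD.left i)
      rw [hT.op_times, h2, map_smul, LinearMap.smul_apply, smul_smul, ← zpow_add₀ hχ, map_smul]
    have h3 : T.slantH (E j) (T.op (A.prod Y) g w) =
        (ρ.χ g ^ (-(A.dim : ℤ) + deg j)) • T.op Y g (T.slantH (E j) w) := by
      rw [h1, slantH_sum hT hD]
    rw [hw.2 g, map_smul] at h3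
    have h4 : T.op Y g (T.slantH (E j) w) =
        (ρ.χ g ^ (-(A.dim : ℤ) + deg j))⁻¹ • ρ.χ g ^ (-n) • T.slantH (E j) w := by
      rw [h3, smul_smul, inv_mul_cancel₀ (zpow_ne_zero _ hχ), one_smul]
    rw [h4, smul_smul, ← zpow_neg, ← zpow_add₀ hχ]
    congr 2
    ring

/-- products of cycles and Tate classes are Tate classes -/
theorem isTateClass_times (h : IsArithmetic ρ) {c n : ℤ} {a : C.A A} (ha : C.Deg c a)
    {w : T.HB Y} (hw : IsTateClass ρ T Y n w) :
    IsTateClass ρ T (A.prod Y) (A.dim - c + n) (T.timesH (H.cl a) w) := by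
  refine ⟨?_, fun g => ?_⟩
  · have h1 := hT.timesH_deg A Y _ _ (H.cl a) (H.cl_mem ha) w hw.1
    have h2 : 2 * (A.dim : ℤ) - 2 * c + 2 * n = 2 * (A.dim - c + n) := by ring
    rwa [h2] at h1
  · have hχ := h.action.ne g
    have h2 : ρ.op A g (H.cl a) = ρ.χ g ^ c • H.cl a := h.action.cl A g _ _ ha
    rw [hT.op_times, h2, hw.2 g, map_smul, map_smul, LinearMap.smul_apply, smul_smul, smul_smul,
      ← zpow_add₀ hχ, ← zpow_add₀ hχ]
    congr 2
    ring

end basic

end Pool.Agent.U173.BM.B
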