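import Pool.Agent.U173.BM.B.Lin

/-!
# Tate classes in the Borel-Moore homology of the products of good varieties and arbitrary varieties
-/

set_option autoImplicit false
set_option linter.unusedSectionVars false

open Polynomial CategoryTheory AlgebraicGeometry
open scoped TensorProduct

namespace Pool.Agent.U173.BM.B

open Pool.Agent.H914 Pool.Agent.H914.VarClass Pool.Agent.H914.VarClass.Obj Pool.Agent.W492.BB
  Pool.Agent.W484.CK Pool.Agent.N166.MU Pool.Agent.N166.TT Pool.Agent.N876.CG Pool.Agent.W550.Corr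
  Pool.Agent.U231.FR.Base Pool.Agent.U173.SL Pool.Agent.U173.PS Pool.Agent.TH121.KT
  Pool.Agent.U173.OP Pool.Agent.W484.CH
open Pool.Agent.U173.GS (IsGood IsStable IsSupersingularOn IsEigenvector semi opL_injective AT_gen
  nondeg_gen)

variable {k : Type} [Field k] {𝒱 : VarClass k} {C : TheoryData.{0, 0, 0} 𝒱 ℚ} [hC : IsChow C]
  {K : Type} [Field K] [CharZero K] {H : WeilTheoryData.{0, 0, 0} C K} [hH : IsWeil H] {G : Type}
  {ρ : Operations H G} {T : HomologyData H G} {A Y : 𝒱.Obj}

/-- The class `w` on `A × Y × U` is a sum of products of algebraic classes on `A` and classes on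
`Y × U`. -/
def Mixed (T : HomologyData H G) (A Y : 𝒱.Obj) (w : T.HB (A.prod Y)) : Prop :=
  ∃ u ∈ LinearMap.range ((AT H A).subtype.rTensor (T.HB Y)),
    TensorProduct.lift (T.timesH (X := A) (Y := Y)) u = w

section step

variable (h : IsArithmetic ρ) (hT : IsHomology ρ T)

include h hT

theorem op_lift (g : G) (u : H.A A ⊗[K] T.HB Y) :
    T.op (A.prod Y) g (TensorProduct.lift (T.timesH (X := A) (Y := Y)) u) =
      ρ.χ g ^ (-(A.dim : ℤ)) • TensorProduct.lift (T.timesH (X := A) (Y := Y))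
        (TensorProduct.map (opL h.action g A) (T.op Y g) u) := by
  induction u using TensorProduct.induction_on with
  | zero => simp only [map_zero, smul_zero]
  | tmul a b =>
    rw [TensorProduct.lift.tmul, TensorProduct.map_tmul, TensorProduct.lift.tmul]
    exact hT.op_times A Y g a b
  | add x y hx hy => simp only [map_add, hx, hy, smul_add]

/-- **Tate classes lie in the mixed part.** -/
theorem mixed_of_good [IsAlgClosed K] {P : Set (Place G)}
    (hP : ∀ v ∈ P, ρ.χ v.σ = (v.p : K) ^ v.m) {W : Submodule K (H.A A)} (hW : IsStable ρ W)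
    (hc : IsCompl W (AT H A))
    (hss : ∀ W' ≤ W, IsStable ρ W' → (∀ v ∈ P, IsSupersingularOn ρ v W') → W' = ⊥)
    (hres : ∀ v ∈ P, ∀ (α : K), ∀ t ∈ W, IsEigenvector ρ v α t →
      (∀ (N : ℕ) (b : ℤ), 0 < N → α ^ N ≠ (v.p : K) ^ b) →
      ∀ β, Module.End.HasEigenvalue (T.op Y v.σ) β → ∀ i : ℤ, α * β ≠ (v.p : K) ^ i)
    (n : ℤ) (w : T.HB (A.prod Y)) (hw : IsTateClass ρ T (A.prod Y) n w) : Mixed T A Y w := by
  have := h.standard.finite A
  have := hT.finite Y
  obtain ⟨u, rfl⟩ := (hT.kunneth A Y).2 w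
  refine ⟨u, ?_, rfl⟩
  have h1 : ∀ g, TensorProduct.map (opL h.action g A) (T.op Y g) u =
      ρ.χ g ^ ((A.dim : ℤ) - n) • u := by
    intro g
    have hχ := h.action.ne g
    apply (hT.kunneth A Y).1
    have h2 := hw.2 g
    rw [op_lift h hT] at h2
    rw [map_smul]
    have h3 : TensorProduct.lift (T.timesH (X := A) (Y := Y))
        (TensorProduct.map (opL h.action g A) (T.op Y g) u) =
        ρ.χ g ^ (A.dim : ℤ) • (ρ.χ g ^ (-(A.dim : ℤ)) •
          TensorProduct.lift (T.timesH (X := A) (Y := Y))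
            (TensorProduct.map (opL h.action g A) (T.op Y g) u)) := by
      rw [smul_smul, ← zpow_add₀ hχ, add_neg_cancel, zpow_zero, one_smul]
    rw [h3, h2, smul_smul, ← zpow_add₀ hχ, sub_eq_add_neg]
  refine semi hc.symm (fun g => opL h.action g A) (fun g => T.op Y g)
    (fun g => ρ.χ g ^ ((A.dim : ℤ) - n)) (fun g => opL_injective h g A) (fun g => hT.injective Y g)
    (fun g => AT_gen h g) hW h1 ?_
  intro W' hWT hW0 hWs
  by_contra hno
  apply hW0
  refine hss W' hWT hWs fun v hv α t ht hα => ?_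
  by_contra hno'
  push Not at hno'
  apply hno
  refine ⟨v.σ, α, t, ht, hα.1, hα.2, fun β hβ heq => ?_⟩
  refine hres v hv α t (hWT ht) hα (fun N b hN => hno' N b hN) β hβ (v.m * ((A.dim : ℤ) - n)) ?_
  rw [heq, hP v hv, ← zpow_natCast, ← zpow_mul]

variable {J : Type} [Fintype J] {deg : J → ℕ} {D E : J → C.A A}

omit h in
theorem expand (hD : IsDual A Y deg D E)
    (hN : ∀ n, AK H A n ≤ Submodule.span K {c | ∃ j, deg j = n ∧ c = H.cl (D j)})
    {w : T.HB (A.prod Y)} (hw : Mixed T A Y w) :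
    w = ∑ j, T.timesH (H.cl (D j)) (T.slantH (E j) w) := by
  obtain ⟨u, hu, rfl⟩ := hw
  obtain ⟨f, hf⟩ := sum_of_mixed (T := T) (Y := Y) hN hu
  rw [hf]
  refine Finset.sum_congr rfl fun j _ => ?_
  rw [slantH_sum hT hD]

omit h in
/-- powers of the polarisation -/
theorem slantH_pol {x : C.A A} {q : ℚ} {i j : ℕ} (hij : i + j = A.dim)
    (hq : HasDeg C (x ^ A.dim) q) (b : T.HB Y) :
    T.slantH (x ^ j) (T.timesH (H.cl (x ^ i)) b) = (q : K) • b := by
  apply slantH_cl hT
  rw [← pow_add, hij]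
  exact (hq Y).1

omit h hT in
theorem pow_deg {x : C.A A} (hx : C.Deg 1 x) (i : ℕ) : C.Deg (i : ℤ) (x ^ i) := by
  induction i with
  | zero =>
    rw [pow_zero, Nat.cast_zero]
    exact C.one_mem A
  | succ i ih =>
    rw [pow_succ, Nat.cast_succ]
    exact C.mul_mem ih hx

variable (hnd : Nondeg H A)
  (hmix : ∀ (n : ℤ) w, IsTateClass ρ T (A.prod Y) n w → Mixed T A Y w)

include hnd hmix

/-- **The expansions.** -/
theorem isDeterminedBy : IsDeterminedBy ρ T A Y := by
  obtain ⟨J, hJ, deg, D, E, hD, hN⟩ := exists_dual (isStandard_bridge h.standard) hnd Y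
  refine ⟨J, hJ, deg, D, hD.left, fun n x hx => ?_, fun n w hw => ?_⟩
  · have h1 := expand hT hD hN (hmix n _ (isTateClass_cl hT hx))
    refine ⟨fun j => T.slant (E j) x, ⟨fun j => hT.slant_deg A Y _ _ _ (hD.right j) x hx, ?_⟩,
      fun z' hz' j => ?_⟩
    · rw [cl_sum hT]
      conv_lhs => rw [h1]
      refine Finset.sum_congr rfl fun j _ => ?_
      rw [hT.cl_times, hT.cl_slant]
    · rw [hT.cl_slant, hz', cl_sum hT]
      have h2 : ∑ j, T.cl (T.times (D j) (z' j)) = ∑ j, T.timesH (H.cl (D j)) (T.cl (z' j)) :=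
        Finset.sum_congr rfl fun j _ => hT.cl_times A Y (D j) (z' j)
      rw [h2, slantH_sum hT hD]
  · have h1 := expand hT hD hN (hmix n w hw)
    refine ⟨fun j => T.slantH (E j) w, ⟨fun j => isTateClass_coef hT h hD hw h1 j, h1⟩, ?_⟩
    rintro f ⟨-, hf⟩
    funext j
    have h2 := slantH_sum hT hD f j
    rw [← hf] at h2
    exact h2.symm

/-- **The class maps are onto.** -/
theorem isOnto_iff (n : ℤ) : IsOnto ρ T (A.prod Y) n ↔
    ∀ m : ℤ, n - A.dim ≤ m → m ≤ n → IsOnto ρ T Y m := by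
  constructor
  · intro h1 m hm hmn w hw
    obtain ⟨x, hx, q, hq0, hq⟩ := h.normalized.polarized A
    obtain ⟨i, j, hij, hj⟩ : ∃ i j : ℕ, i + j = A.dim ∧ (j : ℤ) = n - m :=
      ⟨A.dim - (n - m).toNat, (n - m).toNat, by omega, by omega⟩
    have h2 := isTateClass_times hT h (pow_deg hx i) hw
    have h3 : (A.dim : ℤ) - i + m = n := by omega
    rw [h3] at h2
    have h4 := h1 _ h2
    have h5 : T.slantH (x ^ j) (T.timesH (H.cl (x ^ i)) w) = (q : K) • w :=
      slantH_pol hT hij hq w
    have h6 : ∀ y ∈ Submodule.span K {c | ∃ x ∈ T.chGr (A.prod Y) n, c = T.cl x},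
        T.slantH (x ^ j) y ∈ Submodule.span K {c | ∃ x ∈ T.chGr Y m, c = T.cl x} := by
      intro y hy
      induction hy using Submodule.span_induction with
      | mem y hy =>
        obtain ⟨z, hz, rfl⟩ := hy
        refine Submodule.subset_span ⟨T.slant (x ^ j) z, ?_, (hT.cl_slant _ _ _ _).symm⟩
        have h7 := hT.slant_deg A Y _ _ _ (pow_deg hx j) z hz
        have h8 : n - (j : ℤ) = m := by omega
        rwa [h8] at h7
      | zero => rw [map_zero]; exact Submodule.zero_mem _
      | add x y _ _ hx hy => rw [map_add]; exact Submodule.add_mem _ hx hy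
      | smul a x _ hx => rw [map_smul]; exact Submodule.smul_mem _ _ hx
    have h7 := h6 _ h4
    rw [h5] at h7
    have hq1 : (q : K) ≠ 0 := by exact_mod_cast hq0
    have h8 := Submodule.smul_mem _ (q : K)⁻¹ h7
    rwa [smul_smul, inv_mul_cancel₀ hq1, one_smul] at h8
  · intro h1 w hw
    obtain ⟨J, hJ, deg, D, E, hD, hN⟩ := exists_dual (isStandard_bridge h.standard) hnd Y
    have h2 := expand hT hD hN (hmix n w hw)
    rw [h2]
    refine Submodule.sum_mem _ fun j _ => ?_
    have h3 := isTateClass_coef hT h hD hw h2 j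
    have hle := hD.le j
    have h4 := h1 _ (by omega) (by omega) _ h3
    revert h4
    generalize T.slantH (E j) w = y
    intro h4
    induction h4 using Submodule.span_induction with
    | mem y hy =>
      obtain ⟨z, hz, rfl⟩ := hy
      refine Submodule.subset_span ⟨T.times (D j) z, ?_, (hT.cl_times _ _ _ _).symm⟩
      have h7 := hT.times_deg A Y _ _ _ (hD.left j) z hz
      have h8 : (A.dim : ℤ) - deg j + (n - (A.dim - deg j)) = n := by ring
      rwa [h8] at h7
    | zero => rw [map_zero]; exact Submodule.zero_mem _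
    | add x y _ _ hx hy => rw [map_add]; exact Submodule.add_mem _ hx hy
    | smul a x _ hx => rw [map_smul]; exact Submodule.smul_mem _ _ hx

/-- **The class maps are injective after extension of the coefficients.** -/
theorem isInjective_iff (n : ℤ) : IsInjective T (A.prod Y) n ↔
    ∀ m : ℤ, n - A.dim ≤ m → m ≤ n → IsInjective T Y m := by
  constructor
  · intro h1 m hm hmn r c z hc hz h0
    obtain ⟨x, hx, q, hq0, hq⟩ := h.normalized.polarized A
    obtain ⟨i, j, hij, hj⟩ : ∃ i j : ℕ, i + j = A.dim ∧ (j : ℤ) = n - m :=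
      ⟨A.dim - (n - m).toNat, (n - m).toNat, by omega, by omega⟩
    have h2 := h1 r c (fun s => T.times (x ^ i) (z s)) hc (fun s => by
      have h3 := hT.times_deg A Y _ _ _ (pow_deg hx i) (z s) (hz s)
      have h4 : (A.dim : ℤ) - i + m = n := by omega
      rwa [h4] at h3) (by
      have h3 : ∀ s, c s • T.cl (T.times (x ^ i) (z s)) =
          T.timesH (H.cl (x ^ i)) (c s • T.cl (z s)) := fun s => by
        rw [hT.cl_times, map_smul]
      rw [Finset.sum_congr rfl fun s _ => h3 s, ← map_sum, h0, map_zero])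
    intro s
    have h3 := h2 s
    rw [hT.cl_times] at h3
    have h4 : T.slantH (x ^ j) (T.timesH (H.cl (x ^ i)) (T.cl (z s))) = (q : K) • T.cl (z s) :=
      slantH_pol hT hij hq _
    rw [h3, map_zero] at h4
    have hq1 : (q : K) ≠ 0 := by exact_mod_cast hq0
    exact (smul_eq_zero.1 h4.symm).resolve_left hq1
  · intro h1 r c x hc hx h0 s
    obtain ⟨J, hJ, deg, D, E, hD, hN⟩ := exists_dual (isStandard_bridge h.standard) hnd Y
    rw [expand hT hD hN (hmix n _ (isTateClass_cl hT (hx s)))]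
    refine Finset.sum_eq_zero fun j _ => ?_
    have hle := hD.le j
    have h2 := h1 (n - (A.dim - deg j)) (by omega) (by omega) r c (fun s => T.slant (E j) (x s)) hc
      (fun s => hT.slant_deg A Y _ _ _ (hD.right j) _ (hx s)) (by
        have h3 : ∀ s, c s • T.cl (T.slant (E j) (x s)) =
            T.slantH (E j) (c s • T.cl (x s)) := fun s => by rw [hT.cl_slant, map_smul]
        rw [Finset.sum_congr rfl fun s _ => h3 s, ← map_sum, h0, map_zero]) s
    rw [hT.cl_slant] at h2
    rw [h2, map_zero]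

end step

theorem hasEigenvalue_T (T : HomologyData H G) (g : G) (X : 𝒱.Obj) (α : K) :
    Module.End.HasEigenvalue (T.op X g) α ↔ ∃ a : T.HB X, a ≠ 0 ∧ T.op X g a = α • a := by
  constructor
  · intro h1
    obtain ⟨a, ha⟩ := h1.exists_hasEigenvector
    exact ⟨a, ha.2, ha.apply_eq_smul⟩
  · rintro ⟨a, ha, h1⟩
    exact Module.End.hasEigenvalue_of_hasEigenvector (x := a)
      (Module.End.hasEigenvector_iff.2 ⟨Module.End.mem_eigenspace_iff.2 h1, ha⟩)

theorem inv_zpow_mul {x : K} (hx : x ≠ 0) (e : ℤ) (a : K) : x ^ (-e) * (x ^ e * a) = a := by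
  rw [← mul_assoc, ← zpow_add₀ hx, neg_add_cancel, zpow_zero, one_mul]

/-- the eigenvalues on the product -/
theorem eig_times [IsAlgClosed K] (h : IsArithmetic ρ) (hT : IsHomology ρ T) {g : G} {μ : K}
    (h0 : Module.End.HasEigenvalue (T.op (A.prod Y) g) μ) :
    ∃ α β : K, (opL h.action g A).HasEigenvalue α ∧ Module.End.HasEigenvalue (T.op Y g) β ∧
      μ = ρ.χ g ^ (-(A.dim : ℤ)) * (α * β) := by
  have := h.standard.finite A
  have := hT.finite Y
  have hχ := h.action.ne g
  obtain ⟨w, hw⟩ := h0.exists_hasEigenvector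
  obtain ⟨u, rfl⟩ := (hT.kunneth A Y).2 w
  have hu0 : u ≠ 0 := by
    rintro rfl
    exact hw.2 (map_zero _)
  have h1 : (TensorProduct.map (opL h.action g A) (T.op Y g)) u =
      (ρ.χ g ^ (A.dim : ℤ) * μ) • u := by
    apply (hT.kunneth A Y).1
    have h2 := hw.apply_eq_smul
    rw [op_lift h hT] at h2
    rw [map_smul, ← smul_smul, ← h2, smul_smul, ← zpow_add₀ hχ, add_neg_cancel, zpow_zero,
      one_smul]
  obtain ⟨α, β, hα, hβ, hαβ⟩ := Pool.Agent.N876.FL.eig_tensor (m := 1) hu0
    (by rw [pow_one]; exact h1)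
  refine ⟨α, β, hα, hβ, ?_⟩
  rw [pow_one] at hαβ
  rw [hαβ, ← mul_assoc, ← zpow_add₀ hχ, neg_add_cancel, zpow_zero, one_mul]

variable {I I' : Type} {X : I → 𝒱.Obj} {X' : I' → 𝒱.Obj} {Z : 𝒱.Obj}

/-- the eigenvalues on the products -/
theorem eig_list [IsAlgClosed K] (h : IsArithmetic ρ) (hT : IsHomology ρ T) {v : Place G}
    (hv : ρ.χ v.σ = (v.p : K) ^ v.m) (S : Set K) (l : List I)
    (hS : ∀ j ∈ l, ∀ α, (opL h.action v.σ (X j)).HasEigenvalue α → α ∈ S) :
    ∀ γ, Module.End.HasEigenvalue (T.op (productOf X Z l) v.σ) γ →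
      ∃ (y : List K) (β : K) (e : ℤ), (y ≠ [] → l ≠ []) ∧ (∀ a ∈ y, a ∈ S) ∧
        Module.End.HasEigenvalue (T.op Z v.σ) β ∧ γ = (v.p : K) ^ e * (y.prod * β) := by
  have hp : (v.p : K) ≠ 0 := by exact_mod_cast v.prime.out.ne_zero
  induction l with
  | nil =>
    intro γ hγ
    exact ⟨[], γ, 0, fun h => absurd rfl h, by simp, hγ, by
      rw [List.prod_nil, one_mul, zpow_zero, one_mul]⟩
  | cons i l ih =>
    intro γ hγ
    obtain ⟨α, β', hα, hβ', rfl⟩ := eig_times h hT hγ
    obtain ⟨y, β, e, -, hy, hβ, rfl⟩ := ih (fun j hj => hS j (List.mem_cons_of_mem _ hj)) β' hβ'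
    refine ⟨α :: y, β, v.m * (-((X i).dim : ℤ)) + e, fun _ => List.cons_ne_nil _ _, ?_, hβ, ?_⟩
    · intro a ha
      rcases List.mem_cons.1 ha with rfl | ha
      · exact hS i List.mem_cons_self a hα
      · exact hy a ha
    · rw [hv, ← zpow_natCast, ← zpow_mul, zpow_add₀ hp, List.prod_cons]
      ring

variable {P : I → Set (Place G)} {E L : I → Place G → IntermediateField ℚ (AlgebraicClosure ℚ)}
  {l' : List I'}

/-- **The step in a system.** -/
theorem system_step [IsAlgClosed K] (h : IsArithmetic ρ) (hT : IsHomology ρ T) {i : I} {l : List I}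
    (hsys : IsSystem ρ T P E L X X' Z (i :: l) l') :
    Nondeg H (X i) ∧ ∀ (n : ℤ) w, IsTateClass ρ T
      ((X i).prod (productOf X (productOf X' Z l') l)) n w →
        Mixed T (X i) (productOf X (productOf X' Z l') l) w := by
  obtain ⟨hpos, hchar, hreal, hle, hgood, hpairs, hothers, hbase⟩ := hsys
  rw [List.pairwise_cons] at hpairs
  obtain ⟨W, hW, hc, hTS, hss⟩ := hgood i
  refine ⟨nondeg_gen h (hchar i) hW hc hss, mixed_of_good h hT (hchar i) hW hc hss ?_⟩
  intro v hv α t ht hα hno γ hγ n heq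
  have hp : (v.p : K) ≠ 0 := by exact_mod_cast v.prime.out.ne_zero
  obtain ⟨M, hEM, hLM, hM⟩ := hbase i v hv
  obtain ⟨hslope, hweil⟩ := hTS v hv α t ht hα
  obtain ⟨y, β', e, hne, hy, hβ', rfl⟩ := eig_list h hT (hchar i v hv)
    {a | Apart v (E i v) (L i v) a} l (fun j hj => apart_of h (hpairs.1 j hj v hv)) γ hγ
  obtain ⟨y', β, e', hne', hy', hβ, rfl⟩ := eig_list h hT (hchar i v hv)
    {a | Apart v (E i v) (L i v) a} l' (fun j hj => apart_of h (hothers i j hj v hv)) β' hβ'
  obtain ⟨b, hb, hb'⟩ := (hasEigenvalue_T _ _ _ _).1 hβ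
  refine no_relation_star (ι := v.ι) (hreal i v hv) (hle i v hv) hEM hLM (m := v.m)
    ⟨hslope, hweil, fun N b hN => hno N b hN⟩ (Y := y ++ y') ?_
    (fun a ha => ?_) (hM β b hb hb') (n - e - e') ?_
  · intro hne2
    by_cases hl : l = []
    · have hy0 : y = [] := by
        by_contra h0
        exact hne h0 hl
      have hy0' : y' ≠ [] := by
        intro h0
        apply hne2
        rw [hy0, h0]
        rfl
      obtain ⟨j, hj⟩ := List.exists_mem_of_ne_nil l' (hne' hy0')
      exact (hothers i j hj v hv).1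
    · obtain ⟨j, hj⟩ := List.exists_mem_of_ne_nil l hl
      exact (hpairs.1 j hj v hv).1
  · rcases List.mem_append.1 ha with ha | ha
    · exact hy a ha
    · exact hy' a ha
  · rw [List.prod_append]
    have h1 : α * ((v.p : K) ^ e * (y.prod * ((v.p : K) ^ e' * (y'.prod * β)))) =
        (v.p : K) ^ (e + e') * (α * (y.prod * y'.prod) * β) := by
      rw [zpow_add₀ hp]
      ring
    rw [h1] at heq
    have h2 : α * (y.prod * y'.prod) * β = (v.p : K) ^ (-(e + e')) * (v.p : K) ^ n := by
      rw [← heq]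
      exact (inv_zpow_mul hp (e + e') _).symm
    rw [h2, ← zpow_add₀ hp]
    congr 1
    ring

theorem IsSystem.tail {i : I} {l : List I} (hsys : IsSystem ρ T P E L X X' Z (i :: l) l') :
    IsSystem ρ T P E L X X' Z l l' :=
  ⟨hsys.pos, hsys.character, hsys.real, hsys.le, hsys.good, (List.pairwise_cons.1 hsys.pairs).2,
    hsys.others, hsys.base⟩

/-- a property which goes down -/
theorem descend (Q : 𝒱.Obj → ℤ → Prop) (W : 𝒱.Obj) :
    ∀ l : List I, (∀ i l₁, (i :: l₁) <:+ l → ∀ n : ℤ, Q ((X i).prod (productOf X W l₁)) n ↔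
      ∀ m : ℤ, n - (X i).dim ≤ m → m ≤ n → Q (productOf X W l₁) m) →
      ∀ n : ℤ, Q (productOf X W l) n ↔
        ∀ m : ℤ, n - dimension X l ≤ m → m ≤ n → Q W m := by
  intro l
  induction l with
  | nil =>
    intro _ n
    constructor
    · intro h1 m hm hn
      have : m = n := by
        have : (dimension X [] : ℤ) = 0 := rfl
        omega
      rw [this]
      exact h1
    · intro h1
      exact h1 n (by
        have : (dimension X [] : ℤ) = 0 := rfl
        omega) le_rfl
  | cons i l ih =>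
    intro hstep n
    have h3 := ih fun i' l₁ hs m => hstep i' l₁ (hs.trans (List.suffix_cons i l)) m
    change Q ((X i).prod (productOf X W l)) n ↔ _
    rw [hstep i l List.suffix_rfl]
    simp only [h3]
    have h4 : (dimension X (i :: l) : ℤ) = (X i).dim + dimension X l := by
      change (((X i).dim + dimension X l : ℕ) : ℤ) = _
      push_cast
      rfl
    constructor
    · intro h5 m hm hn
      refine h5 (min n (m + dimension X l)) (by omega) (by omega) m (by omega) (by omega)
    · intro h5 m hm hn m' hm' hn'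
      exact h5 m' (by omega) (by omega)

/-- **The theorem.** -/
theorem main [IsAlgClosed K] (h : IsArithmetic ρ) (hT : IsHomology ρ T) (l : List I)
    (hsys : IsSystem ρ T P E L X X' Z l l') :
    (∀ n : ℤ, IsOnto ρ T (productOf X (productOf X' Z l') l) n ↔
        ∀ m : ℤ, n - dimension X l ≤ m → m ≤ n → IsOnto ρ T (productOf X' Z l') m) ∧
      (∀ n : ℤ, IsInjective T (productOf X (productOf X' Z l') l) n ↔
        ∀ m : ℤ, n - dimension X l ≤ m → m ≤ n → IsInjective T (productOf X' Z l') m) ∧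
      (∀ i l₁, l = i :: l₁ → IsDeterminedBy ρ T (X i) (productOf X (productOf X' Z l') l₁)) := by
  have hsuff : ∀ l₁ : List I, l₁ <:+ l → IsSystem ρ T P E L X X' Z l₁ l' := by
    intro l₁ h1
    obtain ⟨s, rfl⟩ := h1
    induction s with
    | nil => exact hsys
    | cons a s ih => exact ih hsys.tail
  refine ⟨descend (fun V n => IsOnto ρ T V n) _ l fun i l₁ hs n => ?_,
    descend (fun V n => IsInjective T V n) _ l fun i l₁ hs n => ?_, fun i l₁ hl => ?_⟩
  · obtain ⟨h1, h2⟩ := system_step h hT (hsuff _ hs)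
    exact isOnto_iff h hT h1 h2 n
  · obtain ⟨h1, h2⟩ := system_step h hT (hsuff _ hs)
    exact isInjective_iff h hT h1 h2 n
  · obtain ⟨h1, h2⟩ := system_step h hT (hsuff _ (by rw [hl]))
    exact isDeterminedBy h hT h1 h2

end Pool.Agent.U173.BM.B
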